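import Mathlib
import Pool.Agent.helper35.Hz.Sdefs
import Pool.Agent.helper35.Hz.Supp
import Pool.Agent.helper78.Hz.Abstract

/-! # MODULE S of MP_1b0330_gt: the coordinates `s_m` -/

namespace Pool.Agent.helper45.Hz
open Pool.Agent.helper35.Hz

/-! ### `X_i` -/

theorem Xw_top (g off k : ℕ) {i : ℕ} (h : k ≤ i) : Xw g off k i = 1 := by
  simp [Xw, Nat.sub_eq_zero_of_le h]

theorem Xw_step (g off k : ℕ) {i : ℕ} (h : i < k) :
    Xw g off k i = ga g (off + i) * gb g (off + i) * Xw g off k (i + 1) := by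
  unfold Xw
  obtain ⟨n, hn⟩ : ∃ n, k - i = n + 1 := ⟨k - i - 1, by omega⟩
  have hn' : k - (i + 1) = n := by omega
  rw [hn, hn', List.range'_succ, List.map_cons, List.prod_cons]

theorem sc_zero (g off k : ℕ) : sc g off k 0 = (Xw g off k 0)⁻¹ := by simp [sc]

theorem sc_odd (g off k i : ℕ) :
    sc g off k (2 * i + 1) = (ga g (off + i) * Xw g off k (i + 1))⁻¹ := by
  have h1 : (2 * i + 1) % 2 = 1 := by omega
  have h2 : (2 * i + 1) / 2 = i := by omega
  simp [sc, h1, h2]

theorem sc_even (g off k i : ℕ) :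
    sc g off k (2 * i + 2) = (Xw g off k (i + 1))⁻¹ * gb g (off + i) := by
  have h1 : (2 * i + 2) % 2 = 0 := by omega
  have h2 : (2 * i + 2) / 2 = i + 1 := by omega
  have h3 : off + (i + 1) - 1 = off + i := by omega
  simp [sc, h1, h2, h3]

theorem m_cases {k m : ℕ} (hm : m ≤ 2 * k) :
    m = 0 ∨ (∃ i, i < k ∧ m = 2 * i + 1) ∨ (∃ i, i < k ∧ m = 2 * i + 2) := by
  rcases Nat.even_or_odd' m with ⟨c, hc | hc⟩
  · rcases Nat.eq_zero_or_pos c with h | h
    · left; omega
    · right; right; exact ⟨c - 1, by omega, by omega⟩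
  · right; left; exact ⟨c, by omega, by omega⟩

/-! ### alternating products -/

theorem altP_succ {O : Type*} [Group O] (y : ℕ → O) (j : ℕ) :
    altP y (j + 1) = altP y j * (if j % 2 = 0 then y j else (y j)⁻¹) := by
  simp [altP, List.range_succ]

theorem altQ_succ {O : Type*} [Group O] (y : ℕ → O) (j : ℕ) :
    altQ y (j + 1) = altQ y j * (if j % 2 = 0 then (y j)⁻¹ else y j) := by
  simp [altQ, List.range_succ]

theorem altP_sc (g off k : ℕ) {i : ℕ} (h : i ≤ k) :
    altP (sc g off k) (2 * i + 1) = (Xw g off k i)⁻¹ := by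
  induction i with
  | zero => simp [altP, sc_zero]
  | succ i ih =>
    have e : 2 * (i + 1) + 1 = 2 * i + 1 + 1 + 1 := by ring
    have h1 : ¬ (2 * i + 1) % 2 = 0 := by omega
    have h2 : (2 * i + 1 + 1) % 2 = 0 := by omega
    rw [e, altP_succ, altP_succ, ih (by omega), if_neg h1, if_pos h2, sc_odd, sc_even,
      Xw_step g off k (i := i) (by omega)]
    group

theorem altQ_sc (g off k : ℕ) {i : ℕ} (h : i ≤ k) :
    altQ (sc g off k) (2 * i + 1) = zr g off (off + i) * Xw g off k i := by
  induction i with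
  | zero => simp [altQ, sc_zero, zr_self]
  | succ i ih =>
    have e : 2 * (i + 1) + 1 = 2 * i + 1 + 1 + 1 := by ring
    have h1 : ¬ (2 * i + 1) % 2 = 0 := by omega
    have h2 : (2 * i + 1 + 1) % 2 = 0 := by omega
    have e2 : off + (i + 1) = off + i + 1 := by ring
    rw [e, altQ_succ, altQ_succ, ih (by omega), if_neg h1, if_pos h2, sc_odd, sc_even,
      Xw_step g off k (i := i) (by omega), e2, zr_succ g (by omega), gz]
    group

theorem sc_altP {g off k : ℕ} (_h : off + k ≤ g) : altP (sc g off k) (2 * k + 1) = 1 := by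
  rw [altP_sc g off k le_rfl, Xw_top g off k le_rfl, inv_one]

theorem sc_altQ {g off k : ℕ} (_h : off + k ≤ g) :
    altQ (sc g off k) (2 * k + 1) = zr g off (off + k) := by
  rw [altQ_sc g off k le_rfl, Xw_top g off k le_rfl, mul_one]

/-! ### values of the twists -/

section values
variable {g : ℕ}

theorem tauA_ga {i l : ℕ} (hl : l < g) : tauA g i (ga g l) = ga g l := by
  simp [tauA, tw_ga hl, bA]
theorem tauA_inv_ga {i l : ℕ} (hl : l < g) : (tauA g i)⁻¹ (ga g l) = ga g l := by
  rw [tauA, tw_inv_ga hl]; simp [bA]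
theorem tauA_gb {i : ℕ} (hl : i < g) : tauA g i (gb g i) = gb g i * (ga g i)⁻¹ := by
  rw [tauA, tw_gb hl]; simp [bA]
theorem tauA_inv_gb {i : ℕ} (hl : i < g) : (tauA g i)⁻¹ (gb g i) = gb g i * ga g i := by
  rw [tauA, tw_inv_gb hl]; simp [bA]
theorem tauB_gb {i l : ℕ} (hl : l < g) : tauB g i (gb g l) = gb g l := by
  rw [tauB, tw_gb hl]; simp [bB]
theorem tauB_inv_gb {i l : ℕ} (hl : l < g) : (tauB g i)⁻¹ (gb g l) = gb g l := by
  rw [tauB, tw_inv_gb hl]; simp [bB]
theorem tauB_ga {i : ℕ} (hl : i < g) : tauB g i (ga g i) = ga g i * gb g i := by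
  rw [tauB, tw_ga hl]; simp [bB]
theorem tauB_inv_ga {i : ℕ} (hl : i < g) : (tauB g i)⁻¹ (ga g i) = ga g i * (gb g i)⁻¹ := by
  rw [tauB, tw_inv_ga hl]; simp [bB]

/-- `τ_{ν_{i,i+1}}⁻¹` -/
theorem tauN_inv {i : ℕ} (h : i + 1 < g) :
    (tauN g i (i + 1))⁻¹ (ga g i) = ga g i * nu g i (i + 1) ∧
    (tauN g i (i + 1))⁻¹ (gb g i) = (nu g i (i + 1))⁻¹ * gb g i * nu g i (i + 1) ∧
    (tauN g i (i + 1))⁻¹ (ga g (i + 1)) = (nu g i (i + 1))⁻¹ * ga g (i + 1) ∧
    (tauN g i (i + 1))⁻¹ (gb g (i + 1)) = gb g (i + 1) := by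
  have hi : i < g := by omega
  rw [tauN, dif_pos ⟨Nat.lt_succ_self i, h⟩, tw_inv_ga hi, tw_inv_gb hi, tw_inv_ga h, tw_inv_gb h]
  refine ⟨?_, ?_, ?_, ?_⟩ <;> simp [αN, βN]

theorem nu_succ (i : ℕ) : nu g i (i + 1) = (gb g i)⁻¹ * ga g (i + 1) * gb g (i + 1) * (ga g (i + 1))⁻¹ := by
  simp [nu, zr_self]

end values

/-! ### the chain automorphisms on the `s_m` -/

/-- `f` fixes `X_i` if it fixes `X_{i'}` and the products `a_l b_l` in between -/
theorem Xw_fix {g off k : ℕ} (f : MulAut (FG g)) {i' : ℕ}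
    (h0 : f (Xw g off k i') = Xw g off k i')
    (h1 : ∀ l, l < i' → l < k → f (ga g (off + l) * gb g (off + l)) = ga g (off + l) * gb g (off + l))
    {i : ℕ} (hi : i ≤ i') : f (Xw g off k i) = Xw g off k i := by
  obtain ⟨d, rfl⟩ := Nat.exists_eq_add_of_le hi
  clear hi
  induction d generalizing i with
  | zero => exact h0
  | succ d ih =>
    by_cases hk : i < k
    · have e : i + (d + 1) = i + 1 + d := by ring
      rw [Xw_step g off k hk, map_mul, h1 i (by omega) hk]
      rw [e] at h0 h1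
      rw [ih h0 h1]
    · rw [Xw_top g off k (by omega), map_one]

/-- `f` fixes `X_i` if it fixes all the generators of the handles `≥ i` -/
theorem Xw_fix' {g off k : ℕ} (f : MulAut (FG g)) {i : ℕ}
    (h1 : ∀ l, i ≤ l → f (ga g (off + l)) = ga g (off + l) ∧ f (gb g (off + l)) = gb g (off + l)) :
    f (Xw g off k i) = Xw g off k i := by
  unfold Xw
  rw [map_list_prod, List.map_map]
  congr 1
  refine List.map_congr_left fun l hl => ?_
  rw [List.mem_range'_1] at hl
  simp [(h1 l hl.1).1, (h1 l hl.1).2]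

theorem uu_inv_other' {g : ℕ} {P : ℕ → Prop} {T : MulAut (FG g)} (hT : T ∈ Supp g P) {l : ℕ} (hl : ¬ P l) :
    T⁻¹ (ga g l) = ga g l ∧ T⁻¹ (gb g l) = gb g l :=
  ((Supp g P).inv_mem hT).1 l hl

theorem sc_braidLike {g off k : ℕ} (h : off + k ≤ g) :
    IsBraidLike k (sc g off k) (fun j => (uu g off j)⁻¹) := by
  have main : ∀ j, j < 2 * k → (uu g off j)⁻¹ (sc g off k j) = sc g off k (j + 1) ∧
      (uu g off j)⁻¹ (sc g off k (j + 1)) = sc g off k (j + 1) * (sc g off k j)⁻¹ * sc g off k (j + 1) ∧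
      ∀ m, m ≤ 2 * k → m ≠ j → m ≠ j + 1 → (uu g off j)⁻¹ (sc g off k m) = sc g off k m := by
    intro j hj
    rcases m_cases (k := k) (m := j) hj.le with rfl | ⟨i, hi, rfl⟩ | ⟨i, hi, rfl⟩
    · -- `j = 0`
      have hk : 0 < k := by omega
      have hf : uu g off 0 = tauB g off := by simp [uu]
      rw [hf]
      set f : MulAut (FG g) := (tauB g off)⁻¹ with hfd
      have ho : off < g := by omega
      have fa : f (ga g off) = ga g off * (gb g off)⁻¹ := tauB_inv_ga ho
      have fb : f (gb g off) = gb g off := tauB_inv_gb ho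
      have fo : ∀ l, l ≠ off → f (ga g l) = ga g l ∧ f (gb g l) = gb g l := fun l hl =>
        uu_inv_other' (tauB_Supp (P := fun l => l = off) rfl) hl
      have fX : ∀ i, 1 ≤ i → f (Xw g off k i) = Xw g off k i := fun i hi =>
        Xw_fix' f fun l hl => fo _ (by omega)
      have e1 : sc g off k 1 = (ga g off * Xw g off k 1)⁻¹ := by simpa using sc_odd g off k 0
      refine ⟨?_, ?_, ?_⟩
      · rw [zero_add, sc_zero, e1, Xw_step g off k hk, map_inv, map_mul, map_mul, add_zero, fa, fb,
          zero_add, fX 1 le_rfl]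
        group
      · rw [zero_add, sc_zero, e1, Xw_step g off k hk, map_inv, map_mul, add_zero, fa,
          zero_add, fX 1 le_rfl]
        group
      · intro m hm h0 h1
        rcases m_cases hm with rfl | ⟨i, hi, rfl⟩ | ⟨i, hi, rfl⟩
        · exact absurd rfl h0
        · rw [sc_odd, map_inv, map_mul, (fo _ (by omega)).1, fX _ (by omega)]
        · rw [sc_even, map_mul, map_inv, fX _ (by omega)]
          by_cases hi0 : i = 0
          · subst hi0; rw [add_zero, fb]
          · rw [(fo _ (by omega)).2]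
    · -- `j = 2 i + 1`
      have hig : off + i < g := by omega
      have hf : uu g off (2 * i + 1) = tauB g (off + i) * tauA g (off + i) * (tauB g (off + i))⁻¹ := by
        have h1 : (2 * i + 1) % 2 = 1 := by omega
        have h2 : (2 * i + 1) / 2 = i := by omega
        simp [uu, h1, h2]
      rw [hf]
      set f : MulAut (FG g) := (tauB g (off + i) * tauA g (off + i) * (tauB g (off + i))⁻¹)⁻¹ with hfd
      have hf2 : ∀ x, f x = tauB g (off + i) ((tauA g (off + i))⁻¹ ((tauB g (off + i))⁻¹ x)) := by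
        intro x
        rw [hfd, mul_inv_rev, mul_inv_rev, inv_inv, MulAut.mul_apply, MulAut.mul_apply]
      have fa : f (ga g (off + i)) = (gb g (off + i))⁻¹ := by
        rw [hf2, tauB_inv_ga hig, map_mul, map_inv, tauA_inv_ga hig, tauA_inv_gb hig, map_mul, map_inv,
          map_mul, tauB_ga hig, tauB_gb hig]
        group
      have fb : f (gb g (off + i)) = gb g (off + i) * ga g (off + i) * gb g (off + i) := by
        rw [hf2, tauB_inv_gb hig, tauA_inv_gb hig, map_mul, tauB_ga hig, tauB_gb hig]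
        group
      have fo : ∀ l, l ≠ off + i → f (ga g l) = ga g l ∧ f (gb g l) = gb g l := fun l hl =>
        uu_inv_other' (P := fun l => l = off + i)
          (mul_mem (mul_mem (tauB_Supp rfl) (tauA_Supp rfl)) (inv_mem (tauB_Supp rfl))) hl
      have fX1 : ∀ l, i + 1 ≤ l → f (Xw g off k l) = Xw g off k l := fun l hl =>
        Xw_fix' f fun l' hl' => fo _ (by omega)
      have fX : ∀ l, f (Xw g off k l) = Xw g off k l := by
        intro l
        by_cases hl : i + 1 ≤ l
        · exact fX1 l hl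
        · refine Xw_fix f (fX1 (i + 1) le_rfl) (fun l' hl' hk' => ?_) (by omega)
          by_cases hli : l' = i
          · subst hli; rw [map_mul, fa, fb]; group
          · rw [map_mul, (fo _ (by omega)).1, (fo _ (by omega)).2]
      refine ⟨?_, ?_, ?_⟩
      · rw [show 2 * i + 1 + 1 = 2 * i + 2 by ring, sc_odd, sc_even, map_inv, map_mul, fa, fX]
        group
      · rw [show 2 * i + 1 + 1 = 2 * i + 2 by ring, sc_odd, sc_even, map_mul, map_inv, fb, fX]
        group
      · intro m hm h0 h1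
        rcases m_cases hm with rfl | ⟨l, hl, rfl⟩ | ⟨l, hl, rfl⟩
        · rw [sc_zero, map_inv, fX]
        · rw [sc_odd, map_inv, map_mul, (fo _ (by omega)).1, fX]
        · rw [sc_even, map_mul, map_inv, (fo _ (by omega)).2, fX]
    · -- `j = 2 i + 2`
      have hi1 : i + 1 < k := by omega
      have hig : off + i + 1 < g := by omega
      have hf : uu g off (2 * i + 2) = tauN g (off + i) (off + i + 1) := by
        have h1 : ¬ (2 * i + 2) % 2 = 1 := by omega
        have h2 : (2 * i + 2) / 2 = i + 1 := by omega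
        have h3 : ¬ (2 * i + 2 = 0) := by omega
        have h4 : off + (i + 1) - 1 = off + i := by omega
        unfold uu
        rw [if_neg h3, if_neg h1, h2, h4, ← add_assoc]
      rw [hf]
      obtain ⟨fa, fb, fa', fb'⟩ := tauN_inv (g := g) (i := off + i) hig
      have fo : ∀ l, l ≠ off + i → l ≠ off + i + 1 →
          (tauN g (off + i) (off + i + 1))⁻¹ (ga g l) = ga g l ∧
          (tauN g (off + i) (off + i + 1))⁻¹ (gb g l) = gb g l := fun l hl hl' =>
        uu_inv_other' (tauN_Supp (P := fun l => l = off + i ∨ l = off + i + 1) (by intro l; omega))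
          (by omega)
      set f : MulAut (FG g) := (tauN g (off + i) (off + i + 1))⁻¹ with hfd
      rw [nu_succ] at fa fb fa'
      have fX1 : ∀ l, i + 2 ≤ l → f (Xw g off k l) = Xw g off k l := fun l hl =>
        Xw_fix' f fun l' hl' => fo _ (by omega) (by omega)
      have x1 : Xw g off k (i + 1) = ga g (off + i + 1) * gb g (off + i + 1) * Xw g off k (i + 2) :=
        Xw_step g off k hi1
      have x0 : Xw g off k i = ga g (off + i) * gb g (off + i) * Xw g off k (i + 1) :=
        Xw_step g off k hi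
      have fX0 : f (Xw g off k i) = Xw g off k i := by
        rw [x0, x1]
        simp only [map_mul, fa, fb, fa', fb', fX1 (i + 2) le_rfl]
        group
      have fX : ∀ l, l ≤ i → f (Xw g off k l) = Xw g off k l := by
        intro l hl
        refine Xw_fix f fX0 (fun l' hl' hk' => ?_) hl
        rw [map_mul, (fo _ (by omega) (by omega)).1, (fo _ (by omega) (by omega)).2]
      have e3 : sc g off k (2 * i + 2 + 1) = (ga g (off + i + 1) * Xw g off k (i + 2))⁻¹ :=
        sc_odd g off k (i + 1)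
      refine ⟨?_, ?_, ?_⟩
      · rw [e3, sc_even, x1]
        simp only [map_mul, map_inv, fa, fb, fa', fb', fX1 (i + 2) le_rfl]
        group
      · rw [e3, sc_even, x1]
        simp only [map_mul, map_inv, fa, fb, fa', fb', fX1 (i + 2) le_rfl]
        group
      · intro m hm h0 h1
        rcases m_cases hm with rfl | ⟨l, hl, rfl⟩ | ⟨l, hl, rfl⟩
        · rw [sc_zero, map_inv, fX 0 (by omega)]
        · rcases lt_trichotomy l i with hli | hli | hli
          · rw [sc_odd, map_inv, map_mul, (fo _ (by omega) (by omega)).1, fX _ (by omega)]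
          · subst hli
            rw [sc_odd, x1]
            simp only [map_mul, map_inv, fa, fb, fa', fb', fX1 (l + 2) le_rfl]
            group
          · rw [sc_odd, map_inv, map_mul, (fo _ (by omega) (by omega)).1, fX1 _ (by omega)]
        · rcases lt_trichotomy l i with hli | hli | hli
          · rw [sc_even, map_mul, map_inv, (fo _ (by omega) (by omega)).2, fX _ (by omega)]
          · exact (h0 (by omega)).elim
          · rw [sc_even, map_mul, map_inv, fX1 _ (by omega)]
            by_cases hl1 : l = i + 1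
            · subst hl1; rw [← add_assoc, fb']
            · rw [(fo _ (by omega) (by omega)).2]
  exact ⟨fun j hj => (main j hj).1, fun j hj => (main j hj).2.1, fun j hj => (main j hj).2.2⟩

theorem Xw_mem_closure {g off k : ℕ} {i : ℕ} (hi : i ≤ k) :
    Xw g off k i ∈ Subgroup.closure {x | ∃ m ≤ 2 * k, x = sc g off k m} := by
  rw [← inv_mem_iff, ← altP_sc g off k hi]
  refine Subgroup.list_prod_mem _ fun x hx => ?_
  rw [List.mem_map] at hx
  obtain ⟨l, hl, rfl⟩ := hx
  rw [List.mem_range] at hl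
  split_ifs
  · exact Subgroup.subset_closure ⟨l, by omega, rfl⟩
  · exact inv_mem (Subgroup.subset_closure ⟨l, by omega, rfl⟩)

theorem sc_gen {g off k : ℕ} (_h : off + k ≤ g) {i : ℕ} (hi : i < k) :
    ga g (off + i) ∈ Subgroup.closure {x | ∃ m ≤ 2 * k, x = sc g off k m} ∧
    gb g (off + i) ∈ Subgroup.closure {x | ∃ m ≤ 2 * k, x = sc g off k m} := by
  have hX := Xw_mem_closure (g := g) (off := off) (k := k) (i := i + 1) (by omega)
  constructor
  · have e : ga g (off + i) = (sc g off k (2 * i + 1))⁻¹ * (Xw g off k (i + 1))⁻¹ := by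
      rw [sc_odd]; group
    rw [e]
    exact mul_mem (inv_mem (Subgroup.subset_closure ⟨_, by omega, rfl⟩)) (inv_mem hX)
  · have e : gb g (off + i) = Xw g off k (i + 1) * sc g off k (2 * i + 2) := by
      rw [sc_even]; group
    rw [e]
    exact mul_mem hX (Subgroup.subset_closure ⟨_, by omega, rfl⟩)

theorem uu_other {g off k j l : ℕ} (_h : off + k ≤ g) (hj : j < 2 * k) (hl : l < off ∨ off + k ≤ l) :
    uu g off j (ga g l) = ga g l ∧ uu g off j (gb g l) = gb g l :=
  (uu_Supp (P := fun l => off ≤ l ∧ l < off + k) (fun _ h1 h2 => ⟨h1, h2⟩) hj).1 l (by omega)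

/-- the chain relation `δ_k = (u_{2k-1} ⋯ u_0)^{4k+2}` -/
theorem delta_chain {g k : ℕ} (hk : 1 ≤ k) (h : k ≤ g) :
    delta g k = ((((List.range (2 * k)).map fun j => (uu g 0 j)⁻¹).prod) ^ (4 * k + 2))⁻¹ := by
  set P : MulAut (FG g) := (((List.range (2 * k)).map fun j => (uu g 0 j)⁻¹).prod) ^ (4 * k + 2) with hP
  have hb : IsBraidLike k (sc g 0 k) (fun j => (uu g 0 j)⁻¹) := sc_braidLike (by omega)
  have h1 : ∀ m, m ≤ 2 * k → P (sc g 0 k m) = (zr g 0 k)⁻¹ * sc g 0 k m * zr g 0 k := by
    intro m hm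
    have := Pool.Agent.helper78.Hz.chain_abstract k hk (sc g 0 k) (fun j => (uu g 0 j)⁻¹) hb m hm
    rw [sc_altP (by omega), sc_altQ (by omega)] at this
    simpa using this
  have h2 : ∀ x ∈ Subgroup.closure {x | ∃ m ≤ 2 * k, x = sc g 0 k m},
      P x = (zr g 0 k)⁻¹ * x * zr g 0 k := by
    intro x hx
    have : Subgroup.closure {x | ∃ m ≤ 2 * k, x = sc g 0 k m} ≤
        (P : FG g →* FG g).eqLocus (MulAut.conj (zr g 0 k)⁻¹ : FG g →* FG g) := by
      rw [Subgroup.closure_le]
      rintro x ⟨m, hm, rfl⟩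
      change P _ = MulAut.conj (zr g 0 k)⁻¹ _
      rw [h1 m hm, MulAut.conj_apply, inv_inv]
    have := this hx
    change P x = MulAut.conj (zr g 0 k)⁻¹ x at this
    rw [this, MulAut.conj_apply, inv_inv]
  have h3 : P ∈ Supp g (fun l => l < k) := by
    refine pow_mem (Subgroup.list_prod_mem _ fun x hx => ?_) _
    rw [List.mem_map] at hx
    obtain ⟨l, hl, rfl⟩ := hx
    rw [List.mem_range] at hl
    exact inv_mem (uu_Supp (k := k) (fun _ _ h2 => by omega) hl)
  have hz : zr g 0 k ∈ Subgroup.closure {x | ∃ m ≤ 2 * k, x = sc g 0 k m} := by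
    rw [show zr g 0 k = zr g 0 (0 + k) by rw [zero_add], ← sc_altQ (g := g) (off := 0) (k := k) (by omega)]
    refine Subgroup.list_prod_mem _ fun x hx => ?_
    rw [List.mem_map] at hx
    obtain ⟨l, hl, rfl⟩ := hx
    rw [List.mem_range] at hl
    split_ifs
    · exact inv_mem (Subgroup.subset_closure ⟨l, by omega, rfl⟩)
    · exact Subgroup.subset_closure ⟨l, by omega, rfl⟩
  have hPz : P (zr g 0 k) = zr g 0 k := by rw [h2 _ hz]; group
  have key : ∀ x y : FG g, P y = x → y = P⁻¹ x := by
    rintro x y rfl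
    rw [MulAut.inv_apply_self]
  refine fg_aut_ext (fun i hi => ?_) (fun i hi => ?_)
  · refine key _ _ ?_
    rw [delta, dif_pos h, tw_ga hi]
    by_cases hik : i < k
    · have e := h2 _ (by simpa using (sc_gen (g := g) (off := 0) (k := k) (by omega) hik).1)
      simp [αD, hik, hPz, e, mul_assoc]
    · simp [αD, hik, (h3.1 i hik).1]
  · refine key _ _ ?_
    rw [delta, dif_pos h, tw_gb hi]
    by_cases hik : i < k
    · have e := h2 _ (by simpa using (sc_gen (g := g) (off := 0) (k := k) (by omega) hik).2)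
      simp [αD, hik, hPz, e, mul_assoc]
    · simp [αD, hik, (h3.1 i hik).2]

end Pool.Agent.helper45.Hz
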