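import Mathlib
import Pool.Agent.helper35.Hz.Hurwitz

/-! # MODULE M1a of MP_1b0330_gt: combinatorics of Hurwitz moves -/

namespace Pool.Agent.helper45.Hz
open Pool.Agent.helper35.Hz

variable {G : Type*} [Group G]

theorem he_refl (l : List G) : HurwitzEquiv l l := Relation.EqvGen.refl l
theorem he_symm {l l' : List G} (h : HurwitzEquiv l l') : HurwitzEquiv l' l := Relation.EqvGen.symm _ _ h
theorem he_trans {l l' l'' : List G} (h : HurwitzEquiv l l') (h' : HurwitzEquiv l' l'') :
    HurwitzEquiv l l'' := Relation.EqvGen.trans _ _ _ h h'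

theorem he_congr {l l' : List G} (u v : List G) (h : HurwitzEquiv l l') :
    HurwitzEquiv (u ++ l ++ v) (u ++ l' ++ v) := by
  induction h with
  | rel _ _ h =>
    obtain ⟨u', v', x, y⟩ := h
    refine Relation.EqvGen.rel _ _ ?_
    have := HurwitzMove.mk (u ++ u') (v' ++ v) x y
    simpa [List.append_assoc] using this
  | refl _ => exact he_refl _
  | symm _ _ _ ih => exact he_symm ih
  | trans _ _ _ _ _ ih1 ih2 => exact he_trans ih1 ih2

theorem he_left {l l' : List G} (u : List G) (h : HurwitzEquiv l l') : HurwitzEquiv (u ++ l) (u ++ l') := by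
  simpa using he_congr u [] h

theorem he_right {l l' : List G} (v : List G) (h : HurwitzEquiv l l') : HurwitzEquiv (l ++ v) (l' ++ v) := by
  simpa using he_congr [] v h

theorem he_cons {l l' : List G} (a : G) (h : HurwitzEquiv l l') : HurwitzEquiv (a :: l) (a :: l') :=
  he_left [a] h

theorem he_step (x y : G) (v : List G) : HurwitzEquiv (x :: y :: v) ((x * y * x⁻¹) :: x :: v) :=
  Relation.EqvGen.rel _ _ (HurwitzMove.mk [] v x y)

/-- conjugation of a list -/
def cj (g : G) (A : List G) : List G := A.map fun f => g * f * g⁻¹

theorem cj_prod (g : G) (A : List G) : (cj g A).prod = g * A.prod * g⁻¹ := by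
  induction A with
  | nil => simp [cj]
  | cons a A ih =>
    have : cj g (a :: A) = (g * a * g⁻¹) :: cj g A := rfl
    rw [this, List.prod_cons, List.prod_cons, ih]
    group

theorem cj_cj (g h : G) (A : List G) : cj g (cj h A) = cj (g * h) A := by
  simp only [cj, List.map_map]
  refine List.map_congr_left fun f _ => ?_
  simp [mul_assoc]

theorem cj_one (A : List G) : cj (1 : G) A = A := by simp [cj]

/-- moving `x` to the right over `A` -/
theorem move_right (x : G) (A : List G) : HurwitzEquiv (x :: A) (cj x A ++ [x]) := by
  induction A with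
  | nil => exact he_refl _
  | cons a A ih => exact he_trans (he_step x a A) (he_cons _ ih)

/-- moving `x` to the left over the block `A` -/
theorem block_left (A : List G) (x : G) : HurwitzEquiv (A ++ [x]) ((A.prod * x * A.prod⁻¹) :: A) := by
  induction A with
  | nil => simpa using he_refl _
  | cons a A ih =>
    refine he_trans (he_cons a ih) ?_
    have := he_step a (A.prod * x * A.prod⁻¹) A
    simpa [mul_assoc] using this

theorem block_comm_one {A : List G} (hA : A.prod = 1) (x : G) : HurwitzEquiv (A ++ [x]) (x :: A) := by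
  simpa [hA] using block_left A x

theorem block_comm {A : List G} (hA : A.prod = 1) (B : List G) : HurwitzEquiv (A ++ B) (B ++ A) := by
  induction B with
  | nil => simpa using he_refl _
  | cons x B ih =>
    have h1 : HurwitzEquiv (A ++ x :: B) (x :: A ++ B) := by
      simpa using he_right B (block_comm_one hA x)
    exact he_trans h1 (he_cons x ih)

theorem conj_one {A : List G} (hA : A.prod = 1) (x : G) :
    HurwitzEquiv (A ++ [x]) (cj x A ++ [x]) :=
  he_trans (block_comm_one hA x) (move_right x A)

theorem conj_mem {A B : List G} (hA : A.prod = 1) {x : G} (hx : x ∈ B) :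
    HurwitzEquiv (A ++ B) (cj x A ++ B) := by
  obtain ⟨B1, B2, rfl⟩ := List.append_of_mem hx
  have hA' : (cj x A).prod = 1 := by rw [cj_prod, hA]; group
  have h1 : HurwitzEquiv (A ++ (B1 ++ x :: B2)) (B1 ++ (A ++ [x]) ++ B2) := by
    have := he_right (x :: B2) (block_comm hA B1)
    simpa [List.append_assoc] using this
  have h2 : HurwitzEquiv (B1 ++ (A ++ [x]) ++ B2) (B1 ++ (cj x A ++ [x]) ++ B2) :=
    he_congr B1 B2 (conj_one hA x)
  have h3 : HurwitzEquiv (cj x A ++ (B1 ++ x :: B2)) (B1 ++ (cj x A ++ [x]) ++ B2) := by
    have := he_right (x :: B2) (block_comm hA' B1)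
    simpa [List.append_assoc] using this
  exact he_trans h1 (he_trans h2 (he_symm h3))

theorem conj_closure {B : List G} {g : G} (hg : g ∈ Subgroup.closure {f | f ∈ B}) :
    ∀ {A : List G}, A.prod = 1 → HurwitzEquiv (A ++ B) (cj g A ++ B) := by
  induction hg using Subgroup.closure_induction with
  | mem x hx => exact fun hA => conj_mem hA hx
  | one => intro A _; rw [cj_one]; exact he_refl _
  | mul x y _ _ ihx ihy =>
    intro A hA
    have hA' : (cj y A).prod = 1 := by rw [cj_prod, hA]; group
    rw [← cj_cj]
    exact he_trans (ihy hA) (ihx hA')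
  | inv x _ ih =>
    intro A hA
    have hA' : (cj x⁻¹ A).prod = 1 := by rw [cj_prod, hA]; group
    have := ih hA'
    rw [cj_cj, mul_inv_cancel, cj_one] at this
    exact he_symm this

theorem prod_flatMap {W : List G} (hW : W.prod = 1) (ts : List G) :
    (ts.flatMap fun h => cj h W).prod = 1 := by
  induction ts with
  | nil => simp
  | cons t ts ih => simp [ih, cj_prod, hW]

/-- appending copies of `W` and conjugating them -/
theorem append_conj {W C : List G} (hW : W.prod = 1) (ts : List G)
    (h : ∀ t ∈ ts, t ∈ Subgroup.closure {f | f ∈ C}) :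
    HurwitzEquiv (C ++ (List.replicate ts.length W).flatten) (C ++ ts.flatMap fun h => cj h W) := by
  induction ts with
  | nil => simpa using he_refl _
  | cons t ts ih =>
    have ih := ih fun t ht => h t (List.mem_cons_of_mem _ ht)
    have ht := h t List.mem_cons_self
    have hW' : (cj t W).prod = 1 := by rw [cj_prod, hW]; group
    rw [List.length_cons, List.replicate_succ, List.flatten_cons, List.flatMap_cons]
    set R := (List.replicate ts.length W).flatten
    set T := ts.flatMap fun h => cj h W
    have h1 : HurwitzEquiv (C ++ (W ++ R)) (W ++ (C ++ R)) := by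
      simpa [List.append_assoc] using he_right R (he_symm (block_comm hW C))
    have h2 : HurwitzEquiv (W ++ (C ++ R)) (cj t W ++ (C ++ R)) := by
      simpa [List.append_assoc] using he_right R (conj_closure ht hW)
    have h3 : HurwitzEquiv (cj t W ++ (C ++ R)) (cj t W ++ (C ++ T)) := he_left _ ih
    have h4 : HurwitzEquiv (cj t W ++ (C ++ T)) (C ++ (cj t W ++ T)) := by
      simpa [List.append_assoc] using he_right T (block_comm hW' C)
    exact he_trans h1 (he_trans h2 (he_trans h3 h4))

theorem move_closure {l l' : List G} (h : HurwitzMove l l') :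
    Subgroup.closure {f | f ∈ l} = Subgroup.closure {f | f ∈ l'} := by
  obtain ⟨u, v, x, y⟩ := h
  have key : ∀ (K : Subgroup G), (∀ f ∈ u ++ x :: y :: v, f ∈ K) ↔
      (∀ f ∈ u ++ (x * y * x⁻¹) :: x :: v, f ∈ K) := by
    intro K
    simp only [List.mem_append, List.mem_cons]
    constructor
    · intro h f hf
      rcases hf with hf | rfl | rfl | hf
      · exact h f (Or.inl hf)
      · exact mul_mem (mul_mem (h x (by simp)) (h y (by simp))) (inv_mem (h x (by simp)))
      · exact h _ (by simp)
      · exact h f (by simp [hf])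
    · intro h f hf
      rcases hf with hf | rfl | rfl | hf
      · exact h f (Or.inl hf)
      · exact h _ (by simp)
      · have h1 := h x (by simp)
        have h2 := h (x * f * x⁻¹) (by simp)
        have : f = x⁻¹ * (x * f * x⁻¹) * x := by group
        rw [this]
        exact mul_mem (mul_mem (inv_mem h1) h2) h1
      · exact h f (by simp [hf])
  refine le_antisymm ?_ ?_
  · rw [Subgroup.closure_le]
    exact fun f hf => (key _).2 (fun f hf => Subgroup.subset_closure hf) f hf
  · rw [Subgroup.closure_le]
    exact fun f hf => (key _).1 (fun f hf => Subgroup.subset_closure hf) f hf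

/-- MODULE M1a. -/
theorem hurwitz_closure {l l' : List G} (h : HurwitzEquiv l l') :
    Subgroup.closure {f | f ∈ l} = Subgroup.closure {f | f ∈ l'} := by
  induction h with
  | rel _ _ h => exact move_closure h
  | refl _ => rfl
  | symm _ _ _ ih => exact ih.symm
  | trans _ _ _ _ _ ih1 ih2 => exact ih1.trans ih2

theorem hurwitz_trade (W : List G) (hW : W.prod = 1) (hs ts : List G)
    (h1 : ∀ t ∈ ts, t ∈ Subgroup.closure {f | f ∈ W ++ hs.flatMap fun h => W.map fun f => h * f * h⁻¹})
    (h2 : ∀ h ∈ hs, h ∈ Subgroup.closure {f | f ∈ W ++ ts.flatMap fun h => W.map fun f => h * f * h⁻¹}) :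
    HurwitzEquiv
      ((W ++ hs.flatMap fun h => W.map fun f => h * f * h⁻¹) ++ (List.replicate ts.length W).flatten)
      ((W ++ ts.flatMap fun h => W.map fun f => h * f * h⁻¹) ++ (List.replicate hs.length W).flatten) := by
  have e1 := append_conj (C := W ++ hs.flatMap fun h => cj h W) hW ts h1
  have e2 := append_conj (C := W ++ ts.flatMap fun h => cj h W) hW hs h2
  have e3 : HurwitzEquiv ((W ++ hs.flatMap fun h => cj h W) ++ ts.flatMap fun h => cj h W)
      ((W ++ ts.flatMap fun h => cj h W) ++ hs.flatMap fun h => cj h W) := by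
    have := he_left W (block_comm (prod_flatMap hW hs) (ts.flatMap fun h => cj h W))
    simpa [List.append_assoc] using this
  exact he_trans e1 (he_trans e3 (he_symm e2))

end Pool.Agent.helper45.Hz
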